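import Pool.Agent.H687.KC.Fin
import Pool.Agent.H687.TG.Four

/-!
# Inscribed squares in systems of plane continua and arcs with common ends

Let four points of the plane be joined in pairs by six continua (compact connected sets), in any
way. Then there is a square (possibly degenerated to a point) whose vertices lie on continua without
a common end, all four of them in the union of three or four of the continua that form a cycle. If
disjoint pairs of the four points are joined by disjoint continua, and the three continua of three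
points have no common point, then the square is not degenerate. In particular every topological
complete graph with four vertices in the plane (four points and six pairwise disjoint open arcs
joining them, with no regularity at all) contains a Jordan curve with an inscribed square.

To every plane arc that has half tangents at its two ends one can attach a charge in `ZMod 2` such
that a Jordan curve divided into such arcs, with different half tangents at each point of division,
has an inscribed square whenever the sum of the charges of its arcs is zero. So from any odd number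
of such Jordan curves that together contain each arc an even number of times, one has an inscribed
square: one of the three Jordan curves of a theta curve, one of the three Jordan curves with four
arcs of a complete graph with four vertices, and at least three of its seven Jordan curves.
-/

set_option autoImplicit false

namespace Pool.Agent.Results.MP_5a3ebe_gt.ArcsAndContinua

open Pool.Agent.H687.K4

/-- The set `C` contains the four vertices of a square. -/
def HasSquare (C : Set ℂ) : Prop :=
  ∃ z w : ℂ, w ≠ 0 ∧ z ∈ C ∧ z + w ∈ C ∧ z + w + Complex.I * w ∈ C ∧ z + Complex.I * w ∈ C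

/-- For each pair `{x, y}` of the four indices the set `E {x, y}` is compact and connected and
contains the points `a x` and `a y`. -/
def Joined (a : Fin 4 → ℂ) (E : Sym2 (Fin 4) → Set ℂ) : Prop :=
  ∀ x y, x ≠ y → IsCompact (E s(x, y)) ∧ IsPreconnected (E s(x, y)) ∧ a x ∈ E s(x, y) ∧
    a y ∈ E s(x, y)

/-- The four vertices of the square (all equal to `z` if `w = 0`) belong to the sets of four edges
`e k` (pairs of different indices, some of them may be equal) that have no common index, and all of
them belong to the union of the sets of the edges of one cycle `v 0, v 1, …, v (L - 1), v 0`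
(necessarily `L = 3` or `L = 4`). -/
def Spread (E : Sym2 (Fin 4) → Set ℂ) (z w : ℂ) : Prop :=
  ∃ (L : ℕ) (v : ZMod L → Fin 4) (e : Fin 4 → Sym2 (Fin 4)), 3 ≤ L ∧ Function.Injective v ∧
    (∀ k, ¬ (e k).IsDiag) ∧ (∀ x, ∃ k, x ∉ e k) ∧
    ∀ k, (![z, z + w, z + w + Complex.I * w, z + Complex.I * w] : Fin 4 → ℂ) k ∈ E (e k) ∧
      ∃ i, (![z, z + w, z + w + Complex.I * w, z + Complex.I * w] : Fin 4 → ℂ) k ∈
        E s(v i, v (i + 1))

/-- `A` is a simple arc with the ends `a` and `b` (nothing else is assumed about it) and with the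
half tangent `u` at `a` and the half tangent `w` at `b`: for some parametrisation `α` by `[0, 1]` the
unit vectors from `a` to `α t` converge to `u` as `t → 0+`, and those from `b` to `α t` converge to
`w` as `t → 1-`. -/
def Arc (a b u w : ℂ) (A : Set ℂ) : Prop :=
  ∃ α : ℝ → ℂ, ContinuousOn α (Set.Icc 0 1) ∧ Set.InjOn α (Set.Icc 0 1) ∧ α '' Set.Icc 0 1 = A ∧
    α 0 = a ∧ α 1 = b ∧
    Filter.Tendsto (fun t => (α t - a) / (‖α t - a‖ : ℂ)) (nhdsWithin 0 (Set.Ioi 0)) (nhds u) ∧
    Filter.Tendsto (fun t => (α t - b) / (‖α t - b‖ : ℂ)) (nhdsWithin 1 (Set.Iio 1)) (nhds w)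

/-- A closed chain: the arc `A q` joins the point `p q` to `p (q + 1)`, with the half tangents `u q`
at `p q` and `w q` at `p (q + 1)`, the index `q` running through `ZMod (l + 1)`; the two half
tangents at each point `p q` are different, and the sets `A q ∖ {p (q + 1)}` are disjoint. (So
`l ≥ 1`, and for `l = 1` the chain consists of two arcs with common ends.) -/
structure Chain {l : ℕ} (A : ZMod (l + 1) → Set ℂ) (p u w : ZMod (l + 1) → ℂ) : Prop where
  arc : ∀ q, Arc (p q) (p (q + 1)) (u q) (w q) (A q)
  tan : ∀ q, w (q - 1) ≠ u q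
  disj : ∀ q q', q ≠ q' → Disjoint (A q \ {p (q + 1)}) (A q' \ {p (q' + 1)})

/-- A drawing of the complete graph with four vertices: the points `a x` are joined in pairs by
arcs `E {x, y}` with half tangents, the arc `E {x, y}` has the half tangent `T x y` at `a x`, the
three half tangents at each point are different, and two different arcs have no common point
except common ends. -/
structure Drawn (a : Fin 4 → ℂ) (T : Fin 4 → Fin 4 → ℂ) (E : Sym2 (Fin 4) → Set ℂ) : Prop where
  arc : ∀ x y, x ≠ y → Arc (a x) (a y) (T x y) (T y x) (E s(x, y))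
  tan : ∀ x y z, x ≠ y → x ≠ z → y ≠ z → T x y ≠ T x z
  inter : ∀ e f : Sym2 (Fin 4), ¬ e.IsDiag → ¬ f.IsDiag → e ≠ f → ∀ z ∈ E e ∩ E f,
    ∃ x, x ∈ e ∧ x ∈ f ∧ z = a x

/-- `C` is the set of the edges of a cycle of the complete graph with four vertices. -/
def Ring (C : Finset (Sym2 (Fin 4))) : Prop :=
  ∃ (L : ℕ) (v : ZMod L → Fin 4), 3 ≤ L ∧ Function.Injective v ∧
    ∀ e, e ∈ C ↔ ∃ i, e = s(v i, v (i + 1))

theorem Arc.half {a b u w : ℂ} {A : Set ℂ} (h : Arc a b u w A) :
    Pool.Agent.H687.TG.ArcHT a b u w A := by
  obtain ⟨α, h1, h2, h3, h4, h5, h6, h7⟩ := h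
  exact ⟨α, ⟨h1, h2, h4, h5, h6, h7⟩, h3.symm⟩

theorem Chain.half {l : ℕ} {A : ZMod (l + 1) → Set ℂ} {p u w : ZMod (l + 1) → ℂ}
    (h : Chain A p u w) : Pool.Agent.H687.TG.Chain A p u w :=
  ⟨fun q => (h.arc q).half, h.tan, h.disj⟩

/-- (1) If four points are joined in pairs by six plane continua `E {x, y}`, then some square,
possibly degenerate, is spread over them: its vertices belong to the continua of edges without a
common vertex, and to the continua of one cycle.

(2) If in addition `E e` and `E f` are disjoint for disjoint `e` and `f`, and the three sets of a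
triangle have no common point, then some nondegenerate square is spread over them.

(3) Let `φ` be a continuous injective map of the realisation `real ⊤` of the complete graph with
four vertices (the union of the six edges of the simplex) to the plane. Then its image contains a
Jordan curve with an inscribed square.

(4) Let `real G` be the geometric realisation of a graph `G` with the vertices `0, …, n - 1`: the
union of the segments `[e a, e b]`, `a` and `b` adjacent. `IsCyc G v` says that `v : ZMod L → Fin n`
is a cycle in `G` (`3 ≤ L`, `v` is injective, `v i` and `v (i + 1)` are adjacent), and `track v` is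
the corresponding part of `real G`, the union of the segments `[e (v i), e (v (i + 1))]`. For every
continuous map `φ` of `real G` to the plane there are charges `χ b {a, c}` in `ZMod 2` such that for
all cycles of `G` on which `φ` is injective, and whose image does not contain the vertices of a
square, the sum of the charges `χ (v i) {v (i - 1), v (i + 1)}` is equal to `1`.

(5) There are charges `χ A` in `ZMod 2` of plane arcs such that the union of each closed chain of
arcs with half tangents, which is a Jordan curve, has an inscribed square if the sum of the charges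
of the arcs of the chain is zero.

(6) If three arcs join the points `a` and `b`, have no other common points, and have different half
tangents at `a` and at `b`, then the union of two of them has an inscribed square.

(7) In each drawing of the complete graph with four vertices at least three of the seven Jordan
curves have inscribed squares, and one of the three Jordan curves that consist of four arcs. -/
theorem result :
    (∀ (a : Fin 4 → ℂ) (E : Sym2 (Fin 4) → Set ℂ), Joined a E → ∃ z w, Spread E z w) ∧
    (∀ (a : Fin 4 → ℂ) (E : Sym2 (Fin 4) → Set ℂ), Joined a E →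
      (∀ e f : Sym2 (Fin 4), ¬ e.IsDiag → ¬ f.IsDiag → (∀ x, ¬ (x ∈ e ∧ x ∈ f)) →
        Disjoint (E e) (E f)) →
      (∀ x y z, x ≠ y → y ≠ z → x ≠ z → E s(x, y) ∩ E s(y, z) ∩ E s(x, z) = ∅) →
        ∃ z w, w ≠ 0 ∧ Spread E z w) ∧
    (∀ φ : (Fin 4 → ℝ) → ℂ, ContinuousOn φ (real ⊤) → Set.InjOn φ (real ⊤) →
      ∃ γ : Circle → ℂ, Continuous γ ∧ Function.Injective γ ∧ Set.range γ ⊆ φ '' real ⊤ ∧
        HasSquare (Set.range γ)) ∧
    (∀ (n : ℕ) (G : SimpleGraph (Fin n)) (φ : (Fin n → ℝ) → ℂ), ContinuousOn φ (real G) →
      ∃ χ : Fin n → Sym2 (Fin n) → ZMod 2, ∀ (L : ℕ) (v : ZMod L → Fin n), IsCyc G v →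
        Set.InjOn φ (track v) → ¬ HasSquare (φ '' track v) →
          ∑ i ∈ Finset.range L, χ (v i) s(v (i - 1), v (i + 1)) = 1) ∧
    (∃ χ : Set ℂ → ZMod 2, ∀ (l : ℕ) (A : ZMod (l + 1) → Set ℂ) (p u w : ZMod (l + 1) → ℂ),
      Chain A p u w → (∃ γ : Circle → ℂ, Continuous γ ∧ Function.Injective γ ∧
        Set.range γ = ⋃ q, A q) ∧ (∑ q, χ (A q) = 0 → HasSquare (⋃ q, A q))) ∧
    (∀ (a b : ℂ) (u w : Fin 3 → ℂ) (A : Fin 3 → Set ℂ), (∀ i, Arc a b (u i) (w i) (A i)) →
      Function.Injective u → Function.Injective w → (∀ i j, i ≠ j → A i ∩ A j ⊆ {a, b}) →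
        ∃ i j, i ≠ j ∧ HasSquare (A i ∪ A j)) ∧
    (∀ (a : Fin 4 → ℂ) (T : Fin 4 → Fin 4 → ℂ) (E : Sym2 (Fin 4) → Set ℂ), Drawn a T E →
      3 ≤ {C | Ring C ∧ HasSquare (⋃ e ∈ C, E e)}.ncard ∧
        ∃ C, Ring C ∧ C.card = 4 ∧ HasSquare (⋃ e ∈ C, E e)) := by
  have five : ∃ χ : Set ℂ → ZMod 2, ∀ (l : ℕ) (A : ZMod (l + 1) → Set ℂ)
      (p u w : ZMod (l + 1) → ℂ), Pool.Agent.H687.TG.Chain A p u w →
      (∑ q, χ (A q) = 0 → HasSquare (⋃ q, A q)) := by
    obtain ⟨χ, hχ⟩ := Pool.Agent.H687.TG.charge
    refine ⟨χ, fun l A p u w h h0 => ?_⟩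
    by_contra hno
    have := hχ l A p u w h hno
    rw [h0] at this
    exact absurd this (by decide)
  refine ⟨fun a E h => Pool.Agent.H687.KC.spread a E h, fun a E h h1 h2 => ?_, fun φ hφ hi => ?_,
    fun n G φ hφ => charges G φ hφ, ?_, fun a b u w A h1 h2 h3 h4 => ?_, fun a T E h => ?_⟩
  · obtain ⟨z, w, hs⟩ := Pool.Agent.H687.KC.spread a E h
    exact ⟨z, w, hs.ne h1 h2, hs⟩
  · obtain ⟨γ, g1, g2, g3, z, w, e, g4, g5, g6, g7⟩ := Pool.Agent.H687.KC.jordan φ hφ hi
    exact ⟨γ, g1, g2, g3, z, w, g4, (g7 0).1, (g7 1).1, (g7 2).1, (g7 3).1⟩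
  · obtain ⟨χ, hχ⟩ := five
    exact ⟨χ, fun l A p u w h => ⟨h.half.jordan, hχ l A p u w h.half⟩⟩
  · obtain ⟨χ, hχ⟩ := five
    have key : ∀ i j, i ≠ j → χ (A i) + χ (A j) = 0 → ∃ i j, i ≠ j ∧ HasSquare (A i ∪ A j) := by
      intro i j hij h0
      refine ⟨i, j, hij, ?_⟩
      have hc := Pool.Agent.H687.TG.chain2 (h1 i).half (h1 j).half (h2.ne hij) (h3.ne hij)
        (h4 i j hij)
      have := hχ 1 _ _ _ _ hc (by
        change ∑ q : Fin 2, _ = _
        rw [Fin.sum_univ_two]
        exact h0)
      have h5 : (⋃ q : ZMod (1 + 1), (![A i, A j] : Fin 2 → Set ℂ) q) = A i ∪ A j := by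
        ext z
        constructor
        · intro hz
          obtain ⟨q, hq⟩ := Set.mem_iUnion.1 hz
          change Fin 2 at q
          fin_cases q
          · exact Or.inl hq
          · exact Or.inr hq
        · rintro (hz | hz)
          · exact Set.mem_iUnion.2 ⟨(0 : Fin 2), hz⟩
          · exact Set.mem_iUnion.2 ⟨(1 : Fin 2), hz⟩
      rw [h5] at this
      exact this
    have comb : χ (A 0) + χ (A 1) = 0 ∨ χ (A 1) + χ (A 2) = 0 ∨ χ (A 0) + χ (A 2) = 0 := by
      generalize χ (A 0) = x
      generalize χ (A 1) = y
      generalize χ (A 2) = z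
      revert x y z
      decide
    rcases comb with h | h | h
    · exact key 0 1 (by decide) h
    · exact key 1 2 (by decide) h
    · exact key 0 2 (by decide) h
  · have D : Pool.Agent.H687.TG.Drawn a T E :=
      ⟨fun x y hxy => (h.arc x y hxy).half, h.tan, h.inter⟩
    obtain ⟨k1, C, k2, k3, k4⟩ := Pool.Agent.H687.TG.four D
    have e : ∀ S : Set ℂ, ¬ Pool.Agent.H763R2.Dm.NoSq S ↔ HasSquare S := fun S => not_not
    simp only [e] at k1 k4
    exact ⟨k1, C, k3, k2, k4⟩

end Pool.Agent.Results.MP_5a3ebe_gt.ArcsAndContinua
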