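import Pool.Agent.H77.Sq.Local2

/-!
# Inscribed squares in Jordan curves with empty sectors, and in level sets of distance functions

A Jordan curve (continuous, of period `1`, injective on `[0, 1)`) contains the four vertices of a
square if each of its points has an empty sector of half angle `arccos (1/6)` (about `80` degrees)
and of a fixed radius, on whichever side of the curve and in an arbitrary direction that need not
depend continuously (or even measurably) on the point. In particular this holds if every point of
the curve lies on the boundary of an empty open disc of a fixed radius `r > 0` (inside or outside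
the curve, and on different sides for different points), and so for every Jordan curve that is
contained in a level set `{z | infDist z K = r}`, `r > 0`, of the distance function of an arbitrary
set `K`. Such curves can have cusps, which were excluded in the known theorems (locally monotone
curves, curves of finite total curvature).

Idea of the proof. The empty sectors are turned into the local structure of the curve: the set of
directions of empty sectors at a point is upper semicontinuous, so if it lies in a suitable cap the
curve is locally monotone. Otherwise two of the directions are nearly opposite, the curve near the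
point lies in a thin double cone, and an ordering argument (a path that has an empty sector
transversal to the axis at each point cannot turn back) shows that both branches are graphs of
`99/100`-Lipschitz functions over half lines of the axis. If the half lines are opposite the curve is
locally monotone at the point; if they are equal the point is a cusp for which the library shows
that the charge of short chords does not change.
-/

set_option autoImplicit false

namespace Pool.Agent.Results.MP_5a3ebe_gt.EmptySectorsAndLevelSets

/-- The curve is locally monotone (in the sense of Stromquist) at the parameter `s`: near `s` all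
chords of the curve lie in one open half plane. -/
def LocMono (c : ℝ → ℂ) (s : ℝ) : Prop := ∃ ρ > 0, ∃ w : ℂ, ∀ x y : ℝ, |x - s| < ρ → |y - s| < ρ →
  x < y → 0 < (w * (c y - c x)).re

/-- The branch of the curve that starts at `c s` is (near `c s`) the graph of a `κ`-Lipschitz
function over the half line that starts at `c s` and has the direction of the conjugate of `w`. -/
def After (c : ℝ → ℂ) (s κ : ℝ) (w : ℂ) : Prop := w ≠ 0 ∧ ∃ ρ > 0, ∀ x y, s < x → x < y →
  y < s + ρ → |(w * (c y - c x)).im| ≤ κ * (w * (c y - c x)).re

/-- The branch of the curve that ends at `c s` is (near `c s`) the graph of a `κ`-Lipschitz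
function over the half line that starts at `c s` and has the direction of the conjugate of `w`. -/
def Before (c : ℝ → ℂ) (s κ : ℝ) (w : ℂ) : Prop := w ≠ 0 ∧ ∃ ρ > 0, ∀ x y, s - ρ < x → x < y →
  y < s → |(w * (c x - c y)).im| ≤ κ * (w * (c x - c y)).re

/-- Near the parameter `s`, except at `s` itself, the curve is differentiable, and its derivative
has non-zero one-sided limits at `s`. -/
def OneSidedC1 (c : ℝ → ℂ) (s : ℝ) : Prop := (∀ᶠ t in nhdsWithin s {s}ᶜ, DifferentiableAt ℝ c t) ∧
  (∃ v, v ≠ 0 ∧ Filter.Tendsto (deriv c) (nhdsWithin s (Set.Ioi s)) (nhds v)) ∧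
  ∃ v, v ≠ 0 ∧ Filter.Tendsto (deriv c) (nhdsWithin s (Set.Iio s)) (nhds v)

/-- `n` is the direction of an empty sector of half angle `arccos (1/6)` at the point `c x` with
respect to the points `c y`, `y ∈ Y`. -/
def EmptySector (c : ℝ → ℂ) (x : ℝ) (n : ℂ) (Y : Set ℝ) : Prop := ‖n‖ = 1 ∧
  ∀ y ∈ Y, ((starRingEnd ℂ) n * (c y - c x)).re ≤ ‖c y - c x‖ / 6

/-- Every point of some subarc around `c s` has an empty sector with respect to the subarc. -/
def LocSectors (c : ℝ → ℂ) (s : ℝ) : Prop := ∃ ρ > 0, ∀ x, |x - s| < ρ →
  ∃ n : ℂ, EmptySector c x n {y | |y - s| < ρ}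

/-- `C` contains the four vertices of a square. -/
def HasSquare (C : Set ℂ) : Prop := ∃ z w : ℂ, w ≠ 0 ∧ z ∈ C ∧ z + w ∈ C ∧
  z + w + Complex.I * w ∈ C ∧ z + Complex.I * w ∈ C

/-- For every Jordan curve `c`: (1) if every point has empty sectors locally, or is of one of the
types of the library (locally monotone, a common end of two Lipschitz graphs, one-sided `C¹`), then
there is an inscribed square; (2) in particular if every point has an empty sector of radius `r`;
(3) or if every point is a boundary point of an empty open disc of radius `r`; (4) or if the curve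
lies in a level set of the distance function of some set `K`. -/
theorem result (c : ℝ → ℂ) (hc : Continuous c) (hper : ∀ t, c (t + 1) = c t)
    (hinj : Set.InjOn c (Set.Ico 0 1)) :
    ((∀ s, LocSectors c s ∨ LocMono c s ∨
      (∃ w κ, 0 < κ ∧ κ < 1 ∧ After c s κ w ∧ Before c s κ w) ∨
      (∃ w₁ w₂ κ₁ κ₂, 0 < κ₁ ∧ 0 < κ₂ ∧ κ₁ + κ₂ + κ₁ * κ₂ < 1 ∧ After c s κ₁ w₁ ∧
        Before c s κ₂ w₂) ∨
      OneSidedC1 c s) → HasSquare (Set.range c)) ∧
    (∀ r > 0, (∀ x, ∃ n : ℂ, EmptySector c x n {y | ‖c y - c x‖ < r}) →
      HasSquare (Set.range c)) ∧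
    (∀ r > 0, (∀ x, ∃ a : ℂ, ‖c x - a‖ = r ∧ ∀ y, r ≤ ‖c y - a‖) → HasSquare (Set.range c)) ∧
    ∀ (K : Set ℂ) (r : ℝ), K.Nonempty → 0 < r → (∀ x, Metric.infDist (c x) K = r) →
      HasSquare (Set.range c) := by
  have per_int : ∀ (t : ℝ) (m : ℤ), c (t + m) = c t := fun t m =>
    (Function.Periodic.int_mul hper m) t |> fun h => by simpa using h
  have J : ∀ x y, x < y → y < x + 1 → c x ≠ c y := by
    intro x y hxy hy he
    have e1 : c (Int.fract x) = c x := by
      have := per_int (Int.fract x) ⌊x⌋
      rw [Int.fract_add_floor] at this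
      exact this.symm
    have e2 : c (Int.fract y) = c y := by
      have := per_int (Int.fract y) ⌊y⌋
      rw [Int.fract_add_floor] at this
      exact this.symm
    have e3 := hinj ⟨Int.fract_nonneg x, Int.fract_lt_one x⟩
      ⟨Int.fract_nonneg y, Int.fract_lt_one y⟩ (by rw [e1, e2, he])
    obtain ⟨m, hm⟩ := Int.fract_eq_fract.1 e3
    have h1 : (m : ℝ) < 0 := by linarith
    have h2 : (-1 : ℝ) < m := by linarith
    have h3 : m < 0 := by exact_mod_cast h1
    have h4 : -1 < m := by exact_mod_cast h2
    omega
  have P1 : (∀ s, LocSectors c s ∨ LocMono c s ∨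
      (∃ w κ, 0 < κ ∧ κ < 1 ∧ After c s κ w ∧ Before c s κ w) ∨
      (∃ w₁ w₂ κ₁ κ₂, 0 < κ₁ ∧ 0 < κ₂ ∧ κ₁ + κ₂ + κ₁ * κ₂ < 1 ∧ After c s κ₁ w₁ ∧
        Before c s κ₂ w₂) ∨
      OneSidedC1 c s) → HasSquare (Set.range c) := by
    intro h
    refine Pool.Agent.N919.Cusp.final hc hper hinj fun s => ?_
    rcases h s with h | h
    · rcases Pool.Agent.H77.Sq.local_form hc J (s := s) h with h | h
      · exact Or.inl h
      · exact Or.inr (Or.inl h)
    · exact h
  have P2 : ∀ r > 0, (∀ x, ∃ n : ℂ, EmptySector c x n {y | ‖c y - c x‖ < r}) →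
      HasSquare (Set.range c) := by
    intro r hr h
    refine P1 fun s => Or.inl ?_
    obtain ⟨ρ, hρ, H⟩ := Metric.continuousAt_iff.1 (hc.continuousAt (x := s)) (r / 2) (by positivity)
    refine ⟨ρ, hρ, fun x hx => ?_⟩
    obtain ⟨n, n1, n2⟩ := h x
    refine ⟨n, n1, fun y hy => n2 y ?_⟩
    have h1 := H (show dist x s < ρ by rwa [Real.dist_eq])
    have h2 := H (show dist y s < ρ by rwa [Real.dist_eq])
    have h3 := dist_triangle_right (c y) (c x) (c s)
    change ‖c y - c x‖ < r
    rw [← dist_eq_norm]
    linarith
  have P3 : ∀ r > 0, (∀ x, ∃ a : ℂ, ‖c x - a‖ = r ∧ ∀ y, r ≤ ‖c y - a‖) →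
      HasSquare (Set.range c) := by
    intro r hr h
    refine P2 (r / 3) (by positivity) fun x => ?_
    obtain ⟨a, ha, hy⟩ := h x
    have rc : (r : ℂ) ≠ 0 := by exact_mod_cast hr.ne'
    refine ⟨(a - c x) / r, ?_, fun y hyr => ?_⟩
    · rw [norm_div, norm_sub_rev, ha, Complex.norm_real, Real.norm_of_nonneg hr.le,
        div_self hr.ne']
    · change ‖c y - c x‖ < r / 3 at hyr
      have h1 := hy y
      have e : c y - a = (c y - c x) - (a - c x) := by ring
      have h2 : r ^ 2 ≤ ‖(c y - c x) - (a - c x)‖ ^ 2 := by
        rw [← e]; exact pow_le_pow_left₀ hr.le h1 2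
      have h3 : ‖a - c x‖ ^ 2 = r ^ 2 := by rw [norm_sub_rev, ha]
      have h0 := norm_nonneg (c y - c x)
      rw [Complex.sq_norm, Complex.normSq_apply] at h2 h3
      have h4 : ‖c y - c x‖ ^ 2 = (c y - c x).re * (c y - c x).re +
          (c y - c x).im * (c y - c x).im := by rw [Complex.sq_norm, Complex.normSq_apply]
      simp only [map_div₀, Complex.conj_ofReal]
      rw [show (starRingEnd ℂ) (a - c x) / (r : ℂ) * (c y - c x) =
        ((starRingEnd ℂ) (a - c x) * (c y - c x)) / (r : ℂ) by ring, Complex.div_ofReal_re,
        Pool.Agent.H77.Sq.conj_mul_re, div_le_iff₀ hr]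
      unfold Pool.Agent.H77.Sq.ip
      simp only [Complex.sub_re, Complex.sub_im] at h2 h3 h4 ⊢
      nlinarith
  refine ⟨P1, P2, P3, fun K r hK hr h => P3 r hr fun x => ?_⟩
  obtain ⟨a, ha, hxa⟩ := isClosed_closure.exists_infDist_eq_dist hK.closure (c x)
  rw [Metric.infDist_closure, h x] at hxa
  refine ⟨a, by rw [← dist_eq_norm]; exact hxa.symm, fun y => ?_⟩
  rw [← dist_eq_norm]
  have := Metric.infDist_le_dist_of_mem (x := c y) ha
  rwa [Metric.infDist_closure, h y] at this

end Pool.Agent.Results.MP_5a3ebe_gt.EmptySectorsAndLevelSets
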