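import Pool.Agent.H774.W1i

/-! Inscribed squares in Jordan curves with spirals and with wild arcs in finitely many discs. -/

set_option autoImplicit false

namespace Pool.Agent.Results.MP_5a3ebe_gt.SpiralArms

/-- The curve is locally monotone (in the sense of Stromquist) at the parameter `s`: near `s` all
chords of the curve lie in one open half plane. -/
def LocMono (c : ℝ → ℂ) (s : ℝ) : Prop := ∃ ρ > 0, ∃ w : ℂ, ∀ x y : ℝ, |x - s| < ρ → |y - s| < ρ →
  x < y → 0 < (w * (c y - c x)).re

/-- The curve has a cusp at the parameter `s`: after a rotation, both the branch that leaves `c s`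
and the branch that arrives at `c s` are, near `c s`, graphs of Lipschitz functions with constants
at most `2 / 5` over an interval on one and the same side (the right side) of `c s`. -/
def Cusp (c : ℝ → ℂ) (s : ℝ) : Prop := ∃ ρ > 0, ∃ w : ℂ,
  (∀ x y : ℝ, s ≤ x → x < y → y < s + ρ →
    |(w * (c y - c x)).im| < 2 / 5 * (w * (c y - c x)).re) ∧
  (∀ x y : ℝ, s - ρ < x → x < y → y ≤ s →
    |(w * (c x - c y)).im| < 2 / 5 * (w * (c x - c y)).re)

/-- The point at the distance `d` from `p` in the direction with the argument `φ (log d)`. -/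
noncomputable def polar (p : ℂ) (φ : ℝ → ℝ) (d : ℝ) : ℂ :=
  p + d * Complex.exp (φ (Real.log d) * Complex.I)

/-- `φ` is a Lipschitz function with the constant `κ`. For `κ = tan θ` this says that the chords of
`d ↦ polar p φ d` in the coordinate `log (z - p)` form angles of at most `θ` with the radial
direction. For instance `φ u = κ * u` gives the logarithmic spiral that forms the constant angle
`θ` with the radius. -/
def Lip (κ : ℝ) (φ : ℝ → ℝ) : Prop := ∀ u v, |φ u - φ v| ≤ κ * |u - v|

/-- Near the parameter `s` the curve consists of two arms `polar (c s) α` and `polar (c s) β` whose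
arguments are Lipschitz functions of the logarithm of the distance from `c s` with a constant `κ`,
where `κ ≤ 1 / 100`, or `κ < 1` and at arbitrarily small distances `d` from `c s` the two arms are
seen from `c s` under an angle of at least `2 * arctan κ`. -/
def SpiralAt (c : ℝ → ℂ) (s : ℝ) : Prop := ∃ (ρ κ : ℝ) (α β : ℝ → ℝ), 0 < ρ ∧
  Lip κ α ∧ Lip κ β ∧
  (∀ x ∈ Set.Icc (s - ρ) s, c x = polar (c s) α ‖c x - c s‖) ∧
  (∀ x ∈ Set.Icc s (s + ρ), c x = polar (c s) β ‖c x - c s‖) ∧
  (κ ≤ 1 / 100 ∨ (κ < 1 ∧ ∀ ε > 0, ∃ d, 0 < d ∧ d < ε ∧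
    Real.cos (β (Real.log d) - α (Real.log d)) ≤ (1 - κ ^ 2) / (1 + κ ^ 2)))

/-- The points that need no further condition. -/
def Tame (c : ℝ → ℂ) (s : ℝ) : Prop := LocMono c s ∨ Cusp c s ∨ SpiralAt c s

/-- A wild arc with two arms. For a disc with centre `p` and radius `r`: the curve (of period `1`)
does not enter the open disc `|z - p| < 6 r` outside the arc over `[a, b]`; an arc over `[s, t]`,
`a ≤ s ≤ t ≤ b`, about which nothing else is assumed, lies in the disc `|z - p| ≤ r`; the arcs over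
`[a, s]` and over `[t, b]` are arms `polar p α`, `polar p β` with Lipschitz constants `κ < 1`, which
at the distance `5 r / 2` from `p` are seen from `p` under an angle of at least `2 * arctan κ`. -/
def WildArc (c : ℝ → ℂ) (a b : ℝ) : Prop := ∃ (p : ℂ) (r κ s t : ℝ) (α β : ℝ → ℝ), 0 < r ∧
  κ < 1 ∧ Lip κ α ∧ Lip κ β ∧ a ≤ s ∧ s ≤ t ∧ t ≤ b ∧
  (∀ x ∈ Set.Icc s t, ‖c x - p‖ ≤ r) ∧
  (∀ x ∈ Set.Icc a s, c x = polar p α ‖c x - p‖) ∧
  (∀ x ∈ Set.Icc t b, c x = polar p β ‖c x - p‖) ∧
  (∀ x ∈ Set.Icc b (a + 1), 6 * r ≤ ‖c x - p‖) ∧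
  Real.cos (β (Real.log (5 / 2 * r)) - α (Real.log (5 / 2 * r))) ≤ (1 - κ ^ 2) / (1 + κ ^ 2)

/-- Let `c` (continuous, of period `1`, injective on `[0, 1)`) parametrise a Jordan curve `C`, and
let the parameters `t i < t (i + 1)`, `t (i + n) = t i + 1`, divide `C` into `n` arcs. Suppose that
each of these arcs is tame (locally monotone, a cusp, or a spiral with arms at angles of less than
45 degrees with the radius) at each of its points, or that it is tame at its two ends and is a wild
arc with two arms in the sense of `WildArc`. Then `C` contains the four vertices of a square.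

Nothing is assumed about the parts of `C` in the small discs of the wild arcs. -/
theorem result (c : ℝ → ℂ) (hc : Continuous c) (hper : ∀ t, c (t + 1) = c t)
    (hinj : Set.InjOn c (Set.Ico 0 1)) (n : ℕ) (t : ℤ → ℝ) (ht : ∀ i, t i < t (i + 1))
    (htn : ∀ i, t (i + n) = t i + 1)
    (H : ∀ i, (∀ s ∈ Set.Icc (t i) (t (i + 1)), Tame c s) ∨
      (Tame c (t i) ∧ Tame c (t (i + 1)) ∧ WildArc c (t i) (t (i + 1)))) :
    ∃ z w : ℂ, w ≠ 0 ∧ z ∈ Set.range c ∧ z + w ∈ Set.range c ∧
      z + w + Complex.I * w ∈ Set.range c ∧ z + Complex.I * w ∈ Set.range c := by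
  by_contra hno
  have L : H763R2.An.Loop c := ⟨hc, hper⟩
  have J : H763R2.An.Inj c := H774.Rad.inj_of L hinj
  have nosq : H763R2.Dm.NoSq (Set.range c) := hno
  have mono := strictMono_int_of_lt_succ ht
  have hT : ∀ s, Tame c s → Y535.PEG.Mon c s ∨ Helper665_SP.Sg c s := by
    rintro s (h | ⟨ρ, hρ, w, h2, h1⟩ | ⟨ρ, κ, α, β, hρ, ha, hb, h1, h2, h3⟩)
    · exact Or.inl h
    · exact Or.inr (Helper584_CU.Csp.sg L J nosq
        ⟨ρ, hρ, w, fun x y a b d => by have := h2 x y a b d; linarith,
          fun x y a b d => by have := h1 x y a b d; linarith⟩)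
    · right
      rcases h3 with h3 | ⟨h3, h4⟩
      · exact H774.Rad.thin_sg L J nosq hρ h3 ha hb h1 h2
      · have hρ' : 0 < min ρ (1 / 4) := by positivity
        refine H774.Rad.wide_sg L J nosq hρ' (min_le_right _ _) (H774.Rad.kappa_nonneg ha) h3
          ha hb (fun x hx => h1 x ⟨?_, hx.2⟩) (fun x hx => h2 x ⟨hx.1, ?_⟩) fun u0 => ?_
        · linarith [hx.1, min_le_left ρ (1 / 4)]
        · linarith [hx.2, min_le_left ρ (1 / 4)]
        · obtain ⟨d, d0, d1, d2⟩ := h4 (Real.exp u0) (Real.exp_pos u0)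
          exact ⟨Real.log d, (Real.log_lt_iff_lt_exp d0).2 d1, d2⟩
  refine H774.Rad.glue L J nosq mono htn fun i => ?_
  rcases H i with h | ⟨h1, h2, h3⟩
  · exact Or.inl fun s hs => hT s (h s hs)
  · right
    refine ⟨hT _ h1, hT _ h2, ?_⟩
    obtain ⟨p, r, κ, s, t', α, β, hr, hκ, ha, hb, as, st, tb, hcore, k1, k2, hfar, hcos⟩ := h3
    have hn0 : 0 < n := by
      rcases Nat.eq_zero_or_pos n with h | h
      · have := htn 0
        rw [h] at this
        simp at this
      · exact h
    have hle : t (i + 1) ≤ t i + 1 := by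
      rw [← htn i]
      exact mono.monotone (by omega)
    obtain ⟨s1, t1, e1, e2, e3, e4, e5, e6, e7⟩ := H774.Rad.Arms.good
      ⟨hr, H774.Rad.kappa_nonneg ha, hκ, as, st, tb, hle, hcore, ha, hb, k1, k2, hfar⟩ L J hcos
    exact ⟨s1, t1, e1, by linarith, e4, hle, e5, e6, e7⟩

end Pool.Agent.Results.MP_5a3ebe_gt.SpiralArms
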