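import Mathlib
import Pool.Agent.H813.SpiralFinal

/-!
# Nearly closed spiral arms without inscribed squares decay at a locked rate

Let a plane set `C`, for instance a Jordan curve, contain a spiral arm `p + ρ(θ) exp(± i θ)`,
`θ ≥ θ₀`, around a point `p`, where the radius `ρ` is continuous, nonincreasing and tends to `0`.
No other regularity of the arm and no condition on the rest of `C` is assumed.  Suppose that the
turns of the arm are nearly closed: `ρ(θ + 2π) ≥ r ρ(θ)` for all large `θ`.  Then either every
disc around `p` contains the four vertices of an inscribed rectangle whose diagonals cross at a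
given angle `β` (a square for `β = π/2`), or the arm is nearly logarithmic: over a fixed number
`N` of turns the radius is multiplied, everywhere on the arm, by a factor between
`exp(-κ X)` and `exp(-X)`.  Here `κ > 1` is arbitrary, and `X > 0` and `r < 1` depend only on
`κ` and `β`.

In particular a spiral arm with `ρ(θ + 2π)/ρ(θ) → 1` always contains arbitrarily small squares.

Proof.  For nearly centred rectangles with centre `c` and half diagonal `w`, with vertices on
prescribed turns of the arm, the squared radii of the vertices satisfy one linear relation, and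
the polar angles are `arg w` plus a constant up to small errors.  The theorem of Poincaré and
Miranda in dimension four gives a rectangle as soon as the alternating sum `E(φ)` of the squared
radii at the four angles takes both signs robustly.  Otherwise `E` has a constant sign for every
choice of the turns; since `E` is the derivative of a difference of two areas swept by the arm,
which tends to `0`, one of these two areas is always the larger one.  For a pattern whose first
gap is `a₁` and whose last gap is `a₁ + 2π - 2β` this bounds the decay over the middle gap by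
`a₁/(a₁ + 2π - 2β)` from one side, everywhere on the arm.
-/

set_option autoImplicit false

namespace Pool.Agent.Results.MP_5a3ebe_gt.SpiralRateLocking

open Complex Set Filter Topology

theorem result {β : ℝ} (hβ : 0 < β) (hβ' : β < Real.pi) {κ : ℝ} (hκ : 1 < κ) :
    ∃ X > 0, ∃ r : ℝ, r < 1 ∧ ∀ (C : Set ℂ) (p : ℂ) (o : ℝ) (ρ : ℝ → ℝ) (θ₀ : ℝ),
      (o = 1 ∨ o = -1) → ContinuousOn ρ (Ici θ₀) → AntitoneOn ρ (Ici θ₀) →
      (∀ θ, θ₀ ≤ θ → 0 < ρ θ) → Tendsto ρ atTop (𝓝 0) →
      (∀ θ, θ₀ ≤ θ → p + ρ θ * exp (((o * θ : ℝ) : ℂ) * I) ∈ C) →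
      (∀ᶠ θ in atTop, r * ρ θ ≤ ρ (θ + 2 * Real.pi)) →
      (∀ δ : ℝ, 0 < δ → ∃ c w : ℂ, w ≠ 0 ∧
        ∀ z ∈ ({c + w, c + exp (β * I) * w, c - w, c - exp (β * I) * w} : Set ℂ),
          z ∈ C ∧ ‖z - p‖ < δ) ∨
      ∃ N : ℕ, 1 ≤ N ∧ ∀ᶠ θ in atTop,
        Real.exp (-(κ * X)) * ρ θ ≤ ρ (θ + 2 * Real.pi * N) ∧
        ρ (θ + 2 * Real.pi * N) ≤ Real.exp (-X) * ρ θ := by
  obtain ⟨X, hX, r, hr, h⟩ := Pool.Agent.H813.Spiral.rate_locking hβ hβ' hκ
  refine ⟨X, hX, r, hr, fun C p o ρ θ₀ ho h1 h2 h3 h4 h5 h6 => ?_⟩
  rcases h C p o ρ θ₀ ho ⟨h1, h2, h3, h4⟩ h5 h6 with h7 | h7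
  · left
    intro δ hδ
    obtain ⟨a, b, ha, hm⟩ := h7 δ hδ
    refine ⟨b, a, ha, ?_⟩
    intro z hz
    simp only [mem_insert_iff, mem_singleton_iff] at hz
    rcases hz with rfl | rfl | rfl | rfl
    · have := hm 0
      have e : a * Pool.Agent.H813.Spiral.rect β 0 + b = b + a := by
        simp [Pool.Agent.H813.Spiral.rect]; ring
      rwa [e] at this
    · have := hm 1
      have e : a * Pool.Agent.H813.Spiral.rect β 1 + b = b + exp (β * I) * a := by
        simp [Pool.Agent.H813.Spiral.rect]; ring
      rwa [e] at this
    · have := hm 2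
      have e : a * Pool.Agent.H813.Spiral.rect β 2 + b = b - a := by
        simp [Pool.Agent.H813.Spiral.rect]; ring
      rwa [e] at this
    · have := hm 3
      have e : a * Pool.Agent.H813.Spiral.rect β 3 + b = b - exp (β * I) * a := by
        simp [Pool.Agent.H813.Spiral.rect]; ring
      rwa [e] at this
  · right
    exact h7

end Pool.Agent.Results.MP_5a3ebe_gt.SpiralRateLocking
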